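import Mathlib

/-!
# Stepanov's method in characteristic two: elimination by counting
-/

namespace Pool.Agent.H955.KP

open Polynomial

/-! ### Bidegree bounds -/

/-- `BD a b Ψ`: degree at most `a` in the outer variable, at most `b` in the inner variable. -/
def BD {F : Type} [Field F] (a b : ℕ) (Ψ : F[X][X]) : Prop :=
  Ψ.natDegree ≤ a ∧ ∀ k, (Ψ.coeff k).natDegree ≤ b

section BD

variable {F : Type} [Field F]

theorem BD.mono {a b a' b' : ℕ} {Ψ : F[X][X]} (h : BD a b Ψ) (ha : a ≤ a') (hb : b ≤ b') :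
    BD a' b' Ψ := ⟨h.1.trans ha, fun k => (h.2 k).trans hb⟩

theorem BD.add {a b : ℕ} {Ψ Φ : F[X][X]} (h : BD a b Ψ) (h' : BD a b Φ) : BD a b (Ψ + Φ) := by
  refine ⟨(natDegree_add_le _ _).trans (max_le h.1 h'.1), fun k => ?_⟩
  rw [coeff_add]
  exact (natDegree_add_le _ _).trans (max_le (h.2 k) (h'.2 k))

theorem BD.zero (a b : ℕ) : BD a b (0 : F[X][X]) := ⟨by simp, by simp⟩

theorem BD.sum {ι : Type} (s : Finset ι) {a b : ℕ} {f : ι → F[X][X]}
    (h : ∀ i ∈ s, BD a b (f i)) : BD a b (∑ i ∈ s, f i) := by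
  classical
  induction s using Finset.induction_on with
  | empty => simpa using BD.zero a b
  | insert i s hi ih =>
    rw [Finset.sum_insert hi]
    exact (h i (Finset.mem_insert_self i s)).add
      (ih fun j hj => h j (Finset.mem_insert_of_mem hj))

theorem BD.mul {a b a' b' : ℕ} {Ψ Φ : F[X][X]} (h : BD a b Ψ) (h' : BD a' b' Φ) :
    BD (a + a') (b + b') (Ψ * Φ) := by
  refine ⟨natDegree_mul_le.trans (add_le_add h.1 h'.1), fun k => ?_⟩
  rw [coeff_mul]
  refine natDegree_sum_le_of_forall_le _ _ fun i _ => ?_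
  exact natDegree_mul_le.trans (add_le_add (h.2 _) (h'.2 _))

theorem BD.one : BD 0 0 (1 : F[X][X]) := by
  refine ⟨by simp, fun k => ?_⟩
  rw [coeff_one]
  split_ifs <;> simp

theorem BD.pow {a b : ℕ} {Ψ : F[X][X]} (h : BD a b Ψ) (n : ℕ) : BD (n * a) (n * b) (Ψ ^ n) := by
  induction n with
  | zero => simpa using BD.one
  | succ n ih =>
    rw [pow_succ, Nat.succ_mul, Nat.succ_mul]
    exact ih.mul h

theorem BD.mapC {a : ℕ} {r : F[X]} (h : r.natDegree ≤ a) : BD a 0 (r.map C) := by
  refine ⟨natDegree_map_le.trans h, fun k => ?_⟩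
  simp

theorem BD.C {b : ℕ} {r : F[X]} (h : r.natDegree ≤ b) : BD 0 b (C r) := by
  refine ⟨by simp, fun k => ?_⟩
  rw [coeff_C]
  split_ifs <;> simp [h]

theorem BD.taylor {a b : ℕ} {Ψ : F[X][X]} (h : BD a b Ψ) (l : ℕ) :
    ((taylor (X : F[X]) Ψ).coeff l).natDegree ≤ a + b := by
  rw [taylor_coeff, eval_eq_sum_range]
  refine natDegree_sum_le_of_forall_le _ _ fun i hi => ?_
  rw [hasseDeriv_coeff]
  have hi' : i ≤ a := by
    have h1 : (hasseDeriv l Ψ).natDegree ≤ Ψ.natDegree - l := natDegree_hasseDeriv_le Ψ l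
    have h2 := h.1
    have h3 := Finset.mem_range.1 hi
    omega
  calc _ ≤ (((i + l).choose l : F[X]) * Ψ.coeff (i + l)).natDegree + (X ^ i : F[X]).natDegree :=
        natDegree_mul_le
    _ ≤ b + a := by
        refine add_le_add ?_ ?_
        · refine natDegree_mul_le.trans ?_
          rw [natDegree_natCast, zero_add]
          exact h.2 _
        · simpa using hi'
    _ = a + b := add_comm _ _

end BD

/-! ### Elimination -/

/-- The polynomial with the given coefficients. -/
noncomputable def toP {F : Type} [Field F] {B : ℕ} (c : Fin B → F) : F[X] :=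
  ∑ k : Fin B, monomial (k : ℕ) (c k)

theorem toP_coeff {F : Type} [Field F] {B : ℕ} (c : Fin B → F) (k : Fin B) :
    (toP c).coeff k = c k := by
  unfold toP
  rw [finsetSum_coeff, Finset.sum_eq_single k]
  · simp
  · intro j _ hj
    rw [coeff_monomial, if_neg]
    exact fun h => hj (Fin.ext h)
  · simp

theorem toP_sub {F : Type} [Field F] {B : ℕ} (c d : Fin B → F) :
    toP (c - d) = toP c - toP d := by
  simp [toP, Finset.sum_sub_distrib]

theorem toP_natDegree {F : Type} [Field F] {B : ℕ} (c : Fin B → F) :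
    (toP c).natDegree ≤ B - 1 := by
  unfold toP
  refine natDegree_sum_le_of_forall_le _ _ fun k _ => ?_
  exact (natDegree_monomial_le _).trans (by have := k.2; omega)

theorem toP_eq_zero {F : Type} [Field F] {B : ℕ} {c : Fin B → F} (h : toP c = 0) : c = 0 := by
  funext k
  rw [← toP_coeff c k, h]; simp

/-- **Elimination.** -/
theorem elim {F : Type} [Field F] [Fintype F] (M B J dx dz : ℕ) (α β : F[X][X])
    (hα : BD dx dz α) (hβ : BD dx dz β) (hcard : M * (B + J + dx + dz) < 2 * (B * J)) :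
    ∃ r s : Fin J → F[X], (∀ j, (r j).natDegree ≤ B - 1) ∧ (∀ j, (s j).natDegree ≤ B - 1) ∧
      (∃ j, r j ≠ 0 ∨ s j ≠ 0) ∧
      ∀ x₀ : F, (X - C x₀) ^ M ∣ ∑ j : Fin J, (r j * α.map (evalRingHom x₀) +
        s j * β.map (evalRingHom x₀)) * C (x₀ ^ (j : ℕ)) := by
  classical
  set N := B + J + dx + dz with hN
  let Ψ : (Fin J → Fin B → F) × (Fin J → Fin B → F) → F[X][X] := fun p =>
    ∑ j : Fin J, ((toP (p.1 j)).map C * α + (toP (p.2 j)).map C * β) * C (X ^ (j : ℕ))
  have hΨsub : ∀ p p', Ψ (p - p') = Ψ p - Ψ p' := by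
    intro p p'
    simp only [Ψ, Prod.fst_sub, Prod.snd_sub, Pi.sub_apply, toP_sub, Polynomial.map_sub]
    rw [← Finset.sum_sub_distrib]
    refine Finset.sum_congr rfl fun j _ => ?_
    ring
  let Θ : (Fin J → Fin B → F) × (Fin J → Fin B → F) → (Fin M → Fin N → F) := fun p l m =>
    ((taylor (X : F[X]) (Ψ p)).coeff l).coeff m
  have hlt : Fintype.card (Fin M → Fin N → F) <
      Fintype.card ((Fin J → Fin B → F) × (Fin J → Fin B → F)) := by
    simp only [Fintype.card_prod, Fintype.card_fun, Fintype.card_fin]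
    rw [← pow_mul, ← pow_mul, ← pow_add]
    refine Nat.pow_lt_pow_right Fintype.one_lt_card ?_
    have h1 : N * M = M * (B + J + dx + dz) := by rw [hN]; ring
    rw [h1]
    refine hcard.trans_le (le_of_eq (by ring))
  obtain ⟨p, p', hne, heq⟩ := Fintype.exists_ne_map_eq_of_card_lt Θ hlt
  set c := p - p' with hc
  have hc0 : c ≠ 0 := sub_ne_zero.2 hne
  have hBJ : 0 < B ∧ 0 < J := by
    constructor
    · rcases Nat.eq_zero_or_pos B with h | h
      · simp [h] at hcard
      · exact h
    · rcases Nat.eq_zero_or_pos J with h | h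
      · simp [h] at hcard
      · exact h
  have hBD : BD (B - 1 + dx) (dz + (J - 1)) (Ψ c) := by
    refine BD.sum _ fun j _ => ?_
    have h1 : ∀ (d : Fin B → F) (γ : F[X][X]), BD dx dz γ →
        BD (B - 1 + dx) (0 + dz) ((toP d).map C * γ) := fun d γ hγ =>
      (BD.mapC (toP_natDegree d)).mul hγ
    have h2 := ((h1 (c.1 j) α hα).add (h1 (c.2 j) β hβ)).mul
      (BD.C (r := (X : F[X]) ^ (j : ℕ)) (b := J - 1) (by
        rw [natDegree_X_pow]; have := j.2; omega))
    exact h2.mono (by omega) (by omega)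
  have hcoef : ∀ l < M, (taylor (X : F[X]) (Ψ c)).coeff l = 0 := by
    intro l hl
    ext m
    rw [coeff_zero]
    by_cases hm : m < N
    · have h1 := congrFun (congrFun heq ⟨l, hl⟩) ⟨m, hm⟩
      simp only [Θ] at h1
      rw [hc, hΨsub, map_sub, coeff_sub, coeff_sub, h1, sub_self]
    · apply coeff_eq_zero_of_natDegree_lt
      have := hBD.taylor l
      omega
  refine ⟨fun j => toP (c.1 j), fun j => toP (c.2 j), fun j => toP_natDegree _,
    fun j => toP_natDegree _, ?_, ?_⟩
  · by_contra hcon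
    push Not at hcon
    apply hc0
    refine Prod.ext ?_ ?_
    · funext j; exact toP_eq_zero (hcon j).1
    · funext j; exact toP_eq_zero (hcon j).2
  · intro x₀
    have h1 : X ^ M ∣ taylor (X : F[X]) (Ψ c) := X_pow_dvd_iff.2 hcoef
    have h2 : X ^ M ∣ (taylor (X : F[X]) (Ψ c)).map (evalRingHom x₀) := by
      have := Polynomial.map_dvd (evalRingHom x₀) h1
      simpa using this
    have h3 : (taylor (X : F[X]) (Ψ c)).map (evalRingHom x₀) =
        ((Ψ c).map (evalRingHom x₀)).comp (X + C x₀) := by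
      rw [taylor_apply, map_comp]
      simp
    rw [h3] at h2
    have h4 := (X_sub_C_pow_dvd_iff (t := x₀)).2 h2
    convert h4 using 1
    simp only [Ψ, Polynomial.map_sum, Polynomial.map_mul, Polynomial.map_add, Polynomial.map_map,
      Polynomial.map_C]
    refine Finset.sum_congr rfl fun j _ => ?_
    have h5 : ∀ q : F[X], q.map ((evalRingHom x₀).comp C) = q := by
      intro q
      have : (evalRingHom x₀).comp (C : F →+* F[X]) = RingHom.id F := by
        ext; simp
      rw [this, Polynomial.map_id]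
    rw [h5, h5]
    simp

end Pool.Agent.H955.KP
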