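import Mathlib

/-!
# Stepanov's method in characteristic two: the auxiliary polynomial does not vanish
-/

namespace Pool.Agent.H955.KP

open Polynomial

section

variable {F : Type} [Field F]

/-- `w = v ^ (q / 2) * (R + R ^ 2 + ... + R ^ (q / 2))`, `R = u / v`, `q = 2 ^ n`. -/
noncomputable def wp {A : Type} [CommRing A] (u v : A) (n : ℕ) : A :=
  ∑ i ∈ Finset.range n, u ^ (2 ^ i) * v ^ (2 ^ (n - 1) - 2 ^ i)

theorem wp_rel {A : Type} [CommRing A] [CharP A 2] (u v : A) (n : ℕ) (hn : 1 ≤ n) :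
    wp u v n ^ 2 + wp u v n * v ^ (2 ^ (n - 1)) =
      u ^ (2 ^ n) + u * v ^ (2 ^ n - 1) := by
  have h1 : wp u v n ^ 2 = ∑ i ∈ Finset.range n, u ^ (2 ^ (i + 1)) * v ^ (2 ^ n - 2 ^ (i + 1)) := by
    unfold wp
    rw [CharTwo.sum_sq]
    refine Finset.sum_congr rfl fun i hi => ?_
    have hi' : i ≤ n - 1 := by have := Finset.mem_range.1 hi; omega
    rw [mul_pow, ← pow_mul, ← pow_mul, ← pow_succ]
    congr 2
    have h2 : 2 ^ n = 2 ^ (n - 1) * 2 := by rw [← pow_succ]; congr 1; omega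
    rw [h2, pow_succ, ← Nat.sub_mul]
  have h2 : wp u v n * v ^ (2 ^ (n - 1)) =
      ∑ i ∈ Finset.range n, u ^ (2 ^ i) * v ^ (2 ^ n - 2 ^ i) := by
    unfold wp
    rw [Finset.sum_mul]
    refine Finset.sum_congr rfl fun i hi => ?_
    have hi' : i ≤ n - 1 := by have := Finset.mem_range.1 hi; omega
    have h3 : 2 ^ i ≤ 2 ^ (n - 1) := Nat.pow_le_pow_right (by norm_num) hi'
    rw [mul_assoc, ← pow_add]
    congr 2
    have h2 : 2 ^ n = 2 ^ (n - 1) * 2 := by rw [← pow_succ]; congr 1; omega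
    omega
  rw [h1, h2, ← Finset.sum_add_distrib]
  have h3 : ∀ i, u ^ (2 ^ (i + 1)) * v ^ (2 ^ n - 2 ^ (i + 1)) + u ^ (2 ^ i) * v ^ (2 ^ n - 2 ^ i) =
      u ^ (2 ^ (i + 1)) * v ^ (2 ^ n - 2 ^ (i + 1)) - u ^ (2 ^ i) * v ^ (2 ^ n - 2 ^ i) := by
    intro i; rw [CharTwo.sub_eq_add]
  rw [Finset.sum_congr rfl fun i _ => h3 i,
    Finset.sum_range_sub (fun i => u ^ (2 ^ i) * v ^ (2 ^ n - 2 ^ i))]
  simp [CharTwo.sub_eq_add]

/-- Descent. -/
theorem descent [CharP F 2] (u v v' : F[X]) (r a₀ b₀ : F) (ha₀ : a₀ ≠ 0)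
    (hv : v = (X - C r) * v') (hv' : v'.eval r ≠ 0) (hu : u.eval r ≠ 0) (k : ℕ) :
    ∀ a b : F[X], b.natDegree ≤ k →
      C a₀ * (v * (a ^ 2 + a * b) + b ^ 2 * u) + C b₀ * (b ^ 2 * v) = 0 → b = 0 := by
  have hπ : Prime (X - C r : F[X]) := prime_X_sub_C r
  have hπ0 : (X - C r : F[X]) ≠ 0 := X_sub_C_ne_zero r
  have hpv' : ¬ (X - C r) ∣ v' := fun h => hv' (dvd_iff_isRoot.1 h)
  have hpu : ¬ (X - C r) ∣ u := fun h => hu (dvd_iff_isRoot.1 h)
  have hpa : ¬ (X - C r) ∣ C a₀ := fun h => by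
    have := dvd_iff_isRoot.1 h
    simp at this
    exact ha₀ this
  induction k with
  | zero =>
    intro a b hb h
    by_contra hb0
    have h1 : (X - C r) ∣ C a₀ * (b ^ 2 * u) := by
      have : C a₀ * (b ^ 2 * u) = (X - C r) *
          (-(C a₀ * (v' * (a ^ 2 + a * b)) + C b₀ * (b ^ 2 * v'))) := by
        rw [hv] at h
        linear_combination h
      rw [this]; exact dvd_mul_right _ _
    have h2 : (X - C r) ∣ b := by
      rcases hπ.dvd_or_dvd h1 with h1 | h1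
      · exact absurd h1 hpa
      · rcases hπ.dvd_or_dvd h1 with h1 | h1
        · exact hπ.dvd_of_dvd_pow h1
        · exact absurd h1 hpu
    obtain ⟨b', rfl⟩ := h2
    have hb'0 : b' ≠ 0 := right_ne_zero_of_mul hb0
    rw [natDegree_mul hπ0 hb'0, natDegree_X_sub_C] at hb
    omega
  | succ k ih =>
    intro a b hb h
    by_contra hb0
    have h1 : (X - C r) ∣ C a₀ * (b ^ 2 * u) := by
      have : C a₀ * (b ^ 2 * u) = (X - C r) *
          (-(C a₀ * (v' * (a ^ 2 + a * b)) + C b₀ * (b ^ 2 * v'))) := by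
        rw [hv] at h
        linear_combination h
      rw [this]; exact dvd_mul_right _ _
    have h2 : (X - C r) ∣ b := by
      rcases hπ.dvd_or_dvd h1 with h1 | h1
      · exact absurd h1 hpa
      · rcases hπ.dvd_or_dvd h1 with h1 | h1
        · exact hπ.dvd_of_dvd_pow h1
        · exact absurd h1 hpu
    obtain ⟨b', rfl⟩ := h2
    have hb'0 : b' ≠ 0 := right_ne_zero_of_mul hb0
    have h3 : C a₀ * (v' * (a ^ 2 + a * ((X - C r) * b')) + (X - C r) * (b' ^ 2 * u)) +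
        C b₀ * ((X - C r) ^ 2 * (b' ^ 2 * v')) = 0 := by
      apply mul_left_cancel₀ hπ0
      rw [hv] at h
      linear_combination h
    have h4 : (X - C r) ∣ C a₀ * (v' * a ^ 2) := by
      have : C a₀ * (v' * a ^ 2) = (X - C r) *
          (-(C a₀ * (v' * (a * b')) + C a₀ * (b' ^ 2 * u) +
            C b₀ * ((X - C r) * (b' ^ 2 * v')))) := by
        linear_combination h3
      rw [this]; exact dvd_mul_right _ _
    have h5 : (X - C r) ∣ a := by
      rcases hπ.dvd_or_dvd h4 with h1 | h1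
      · exact absurd h1 hpa
      · rcases hπ.dvd_or_dvd h1 with h1 | h1
        · exact absurd h1 hpv'
        · exact hπ.dvd_of_dvd_pow h1
    obtain ⟨a', rfl⟩ := h5
    have h6 : C a₀ * (v * (a' ^ 2 + a' * b') + b' ^ 2 * u) + C b₀ * (b' ^ 2 * v) = 0 := by
      apply mul_left_cancel₀ hπ0
      rw [hv]
      linear_combination h3
    refine hb'0 (ih a' b' ?_ h6)
    rw [natDegree_mul hπ0 hb'0, natDegree_X_sub_C] at hb
    omega

/-- The main step of the nonvanishing. -/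
theorem nonvan1 [Fintype F] [CharP F 2] (n s B : ℕ) (hn : 1 ≤ n) (hF : Fintype.card F = 2 ^ n)
    (u v v' : F[X]) (r : F) (hv : v = (X - C r) * v') (hv' : v'.eval r ≠ 0) (hu : u.eval r ≠ 0)
    (hv0 : v.eval 0 ≠ 0) (hvd : v.natDegree ≤ s) (hud : u.natDegree ≤ s + 1)
    (hB : 2 * B + s + 1 < 2 ^ n) (a b : F[X]) (ha : a.natDegree ≤ B) (hb : b.natDegree ≤ B)
    (h : X ^ (2 ^ n) ∣ a * v ^ (2 ^ (n - 1)) + b * wp u v n) : a = 0 ∧ b = 0 := by
  have hpow : ∀ f : F[X], X ^ (2 ^ n) ∣ f ^ (2 ^ n) - C (f.eval 0) := by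
    intro f
    have h1 : X ∣ f - C (f.eval 0) := by
      rw [X_dvd_iff]
      simp [coeff_zero_eq_eval_zero]
    obtain ⟨g, hg⟩ := h1
    refine ⟨g ^ (2 ^ n), ?_⟩
    have h2 : (f - C (f.eval 0)) ^ (2 ^ n) = f ^ (2 ^ n) - C (f.eval 0) ^ (2 ^ n) :=
      sub_pow_char_pow _ _ n
    rw [hg, mul_pow, ← C_pow, ← hF, FiniteField.pow_card] at h2
    rw [← hF, h2]
  set V0 := v.eval 0 with hV0
  set U0 := u.eval 0 with hU0
  -- the square identity
  have hsq : X ^ (2 ^ n) ∣ (a ^ 2 + a * b) * v ^ (2 ^ n) +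
      b ^ 2 * (u ^ (2 ^ n) + u * v ^ (2 ^ n - 1)) := by
    have h2 : (a ^ 2 + a * b) * v ^ (2 ^ n) + b ^ 2 * (u ^ (2 ^ n) + u * v ^ (2 ^ n - 1)) =
        (a * v ^ (2 ^ (n - 1)) + b * wp u v n) *
          (a * v ^ (2 ^ (n - 1)) + b * wp u v n + b * v ^ (2 ^ (n - 1))) := by
      rw [← wp_rel u v n hn]
      have h3 : v ^ (2 ^ n) = v ^ (2 ^ (n - 1)) * v ^ (2 ^ (n - 1)) := by
        rw [← pow_add]; congr 1
        have : 2 ^ n = 2 ^ (n - 1) * 2 := by rw [← pow_succ]; congr 1; omega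
        omega
      rw [h3]
      have h2' : (2 : F[X]) = 0 := CharTwo.two_eq_zero
      linear_combination (-(a * v ^ (2 ^ (n - 1)) * (b * wp u v n))) * h2'
    rw [h2]
    exact dvd_mul_of_dvd_left h _
  have hG : X ^ (2 ^ n) ∣ C V0 * (v * (a ^ 2 + a * b) + b ^ 2 * u) + C U0 * (b ^ 2 * v) := by
    have h1 := hpow v
    have h2 := hpow u
    have h3 : v * v ^ (2 ^ n - 1) = v ^ (2 ^ n) := by
      rw [← pow_succ']; congr 1
      have : 0 < 2 ^ n := by positivity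
      omega
    have h4 : C V0 * (v * (a ^ 2 + a * b) + b ^ 2 * u) + C U0 * (b ^ 2 * v) =
        v * ((a ^ 2 + a * b) * v ^ (2 ^ n) + b ^ 2 * (u ^ (2 ^ n) + u * v ^ (2 ^ n - 1))) -
        (v * (a ^ 2 + a * b) + b ^ 2 * u) * (v ^ (2 ^ n) - C V0) -
        (b ^ 2 * v) * (u ^ (2 ^ n) - C U0) := by
      linear_combination (-(b ^ 2 * u)) * h3
    rw [h4]
    exact dvd_sub (dvd_sub (dvd_mul_of_dvd_right hsq _) (dvd_mul_of_dvd_right h1 _))
      (dvd_mul_of_dvd_right h2 _)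
  have hdeg : (C V0 * (v * (a ^ 2 + a * b) + b ^ 2 * u) + C U0 * (b ^ 2 * v)).natDegree <
      2 ^ n := by
    have ha2 : (a ^ 2).natDegree ≤ 2 * B := by
      refine natDegree_pow_le.trans ?_; omega
    have hb2 : (b ^ 2).natDegree ≤ 2 * B := by
      refine natDegree_pow_le.trans ?_; omega
    have hab : (a * b).natDegree ≤ 2 * B := by
      refine natDegree_mul_le.trans ?_; omega
    have h1 : (v * (a ^ 2 + a * b)).natDegree ≤ 2 * B + s + 1 := by
      refine natDegree_mul_le.trans ?_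
      have := (natDegree_add_le (a ^ 2) (a * b)).trans (max_le ha2 hab)
      omega
    have h2 : (b ^ 2 * u).natDegree ≤ 2 * B + s + 1 := by
      refine natDegree_mul_le.trans ?_; omega
    have h3 : (b ^ 2 * v).natDegree ≤ 2 * B + s + 1 := by
      refine natDegree_mul_le.trans ?_; omega
    have h4 : (C V0 * (v * (a ^ 2 + a * b) + b ^ 2 * u)).natDegree ≤ 2 * B + s + 1 :=
      (natDegree_C_mul_le _ _).trans ((natDegree_add_le _ _).trans (max_le h1 h2))
    have h5 : (C U0 * (b ^ 2 * v)).natDegree ≤ 2 * B + s + 1 :=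
      (natDegree_C_mul_le _ _).trans h3
    exact ((natDegree_add_le _ _).trans (max_le h4 h5)).trans_lt hB
  have hzero := eq_zero_of_dvd_of_natDegree_lt hG (by rw [natDegree_X_pow]; exact hdeg)
  have hb0 : b = 0 := descent u v v' r V0 U0 hv0 hv hv' hu b.natDegree a b le_rfl hzero
  refine ⟨?_, hb0⟩
  rw [hb0] at hzero
  have hvne : v ≠ 0 := by rintro rfl; simp [V0] at hv0
  have : C V0 * (v * a ^ 2) = 0 := by linear_combination hzero
  rcases mul_eq_zero.1 this with h1 | h1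
  · exact absurd (C_eq_zero.1 h1) hv0
  · rcases mul_eq_zero.1 h1 with h1 | h1
    · exact absurd h1 hvne
    · exact pow_eq_zero_iff (two_ne_zero) |>.1 h1

/-- The auxiliary polynomial does not vanish. -/
theorem nonvan [Fintype F] [CharP F 2] (n s B J : ℕ) (hn : 1 ≤ n) (hF : Fintype.card F = 2 ^ n)
    (u v v' : F[X]) (r : F) (hv : v = (X - C r) * v') (hv' : v'.eval r ≠ 0) (hu : u.eval r ≠ 0)
    (hv0 : v.eval 0 ≠ 0) (hvd : v.natDegree ≤ s) (hud : u.natDegree ≤ s + 1)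
    (hB : 2 * B + s + 1 < 2 ^ n) (a b : Fin J → F[X]) (ha : ∀ j, (a j).natDegree ≤ B)
    (hb : ∀ j, (b j).natDegree ≤ B) (hne : ∃ j, a j ≠ 0 ∨ b j ≠ 0) :
    ∑ j : Fin J, (a j * v ^ (2 ^ (n - 1)) + b j * wp u v n) * (X ^ (2 ^ n)) ^ (j : ℕ) ≠ 0 := by
  intro h0
  have key : ∀ k, ∀ hk : k < J, a ⟨k, hk⟩ = 0 ∧ b ⟨k, hk⟩ = 0 := by
    intro k
    induction k using Nat.strong_induction_on with
    | _ k ih =>
      intro hk
      have h1 : (X ^ (2 ^ n)) ^ (k + 1) ∣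
          (a ⟨k, hk⟩ * v ^ (2 ^ (n - 1)) + b ⟨k, hk⟩ * wp u v n) * (X ^ (2 ^ n)) ^ k := by
        rw [← Finset.sum_erase_add _ _ (Finset.mem_univ (⟨k, hk⟩ : Fin J))] at h0
        have h2 := eq_neg_of_add_eq_zero_right h0
        rw [h2, dvd_neg]
        refine Finset.dvd_sum fun j hj => ?_
        have hj' : j ≠ ⟨k, hk⟩ := (Finset.mem_erase.1 hj).1
        rcases lt_or_ge (j : ℕ) k with hjk | hjk
        · have := ih j hjk j.2
          simp [this.1, this.2]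
        · have : k + 1 ≤ j := by
            rcases Nat.eq_or_lt_of_le hjk with h | h
            · exact absurd (Fin.ext h.symm) hj'
            · exact h
          exact dvd_mul_of_dvd_right (pow_dvd_pow _ this) _
      have hX : ((X : F[X]) ^ (2 ^ n)) ^ k ≠ 0 := pow_ne_zero _ (pow_ne_zero _ X_ne_zero)
      rw [pow_succ, mul_comm (((X : F[X]) ^ (2 ^ n)) ^ k) (X ^ (2 ^ n))] at h1
      have h3 := (mul_dvd_mul_iff_right hX).1 h1
      exact nonvan1 n s B hn hF u v v' r hv hv' hu hv0 hvd hud hB _ _ (ha _) (hb _) h3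
  obtain ⟨j, hj⟩ := hne
  have := key j j.2
  rcases hj with hj | hj
  · exact hj this.1
  · exact hj this.2

end

end Pool.Agent.H955.KP
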