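import Mathlib
import Pool.Agent.H955.KP.W1
import Pool.Agent.H955.KP.W2

/-!
# Stepanov's method in characteristic two: vanishing, count
-/

namespace Pool.Agent.H955.KP

open Polynomial

/-- The computation in the quotient ring. -/
theorem quot_calc {Q : Type} [CommRing Q] (h2 : (2 : Q) = 0) (n I J : ℕ) (hI : 1 ≤ I)
    (hIn : I < n) (U V V' U0 V0 V0' x xq c : Q) (hV : V * V' = 1) (hV0 : V0 * V0' = 1)
    (hU : ∀ i, I ≤ i → U ^ (2 ^ i) = U0 ^ (2 ^ i)) (hVV : ∀ i, I ≤ i → V ^ (2 ^ i) = V0 ^ (2 ^ i))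
    (hx : xq = x) (hc : ∑ i ∈ Finset.range n, (U0 * V0') ^ (2 ^ i) = c) (a b : Fin J → Q)
    (h : ∑ j : Fin J, (a j * (V ^ (2 ^ (I - 1)) * V0 ^ (2 ^ (I - 1))) +
      b j * (c * (V ^ (2 ^ (I - 1)) * V0 ^ (2 ^ (I - 1))) + ∑ i ∈ Finset.range I,
        (U ^ (2 ^ i) * V ^ (2 ^ (I - 1) - 2 ^ i) * V0 ^ (2 ^ (I - 1)) +
          V ^ (2 ^ (I - 1)) * (U0 ^ (2 ^ i) * V0 ^ (2 ^ (I - 1) - 2 ^ i))))) * x ^ (j : ℕ) = 0) :
    ∑ j : Fin J, (a j * V ^ (2 ^ (n - 1)) + b j * wp U V n) * xq ^ (j : ℕ) = 0 := by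
  have key : ∀ (U V V' : Q) (m i : ℕ), V * V' = 1 → i ≤ m →
      U ^ (2 ^ i) * V ^ (2 ^ m - 2 ^ i) = V ^ (2 ^ m) * (U * V') ^ (2 ^ i) := by
    intro U V V' m i hV him
    have h3 : 2 ^ i ≤ 2 ^ m := Nat.pow_le_pow_right (by norm_num) him
    have h4 : V ^ (2 ^ m) = V ^ (2 ^ m - 2 ^ i) * V ^ (2 ^ i) := by
      rw [← pow_add]; congr 1; omega
    rw [h4, mul_pow]
    have h5 : V ^ (2 ^ i) * V' ^ (2 ^ i) = 1 := by rw [← mul_pow, hV, one_pow]
    linear_combination (-(U ^ (2 ^ i) * V ^ (2 ^ m - 2 ^ i))) * h5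
  set τ : Q := c + ∑ i ∈ Finset.range I, ((U * V') ^ (2 ^ i) + (U0 * V0') ^ (2 ^ i)) with hτ
  have hβ : c * (V ^ (2 ^ (I - 1)) * V0 ^ (2 ^ (I - 1))) + ∑ i ∈ Finset.range I,
        (U ^ (2 ^ i) * V ^ (2 ^ (I - 1) - 2 ^ i) * V0 ^ (2 ^ (I - 1)) +
          V ^ (2 ^ (I - 1)) * (U0 ^ (2 ^ i) * V0 ^ (2 ^ (I - 1) - 2 ^ i))) =
      (V ^ (2 ^ (I - 1)) * V0 ^ (2 ^ (I - 1))) * τ := by
    rw [hτ, mul_add, mul_comm c, Finset.mul_sum]
    congr 1
    refine Finset.sum_congr rfl fun i hi => ?_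
    have hi' : i ≤ I - 1 := by have := Finset.mem_range.1 hi; omega
    rw [key U V V' (I - 1) i hV hi', key U0 V0 V0' (I - 1) i hV0 hi']
    ring
  have hVn : V ^ (2 ^ (n - 1)) = V0 ^ (2 ^ (n - 1)) := hVV _ (by omega)
  have hV' : ∀ i, I ≤ i → (U * V') ^ (2 ^ i) = (U0 * V0') ^ (2 ^ i) := by
    intro i hi
    rw [mul_pow, mul_pow, hU i hi]
    congr 1
    have h5 : V ^ (2 ^ i) * V' ^ (2 ^ i) = 1 := by rw [← mul_pow, hV, one_pow]
    have h6 : V0 ^ (2 ^ i) * V0' ^ (2 ^ i) = 1 := by rw [← mul_pow, hV0, one_pow]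
    rw [hVV i hi] at h5
    linear_combination V0' ^ (2 ^ i) * h5 - V' ^ (2 ^ i) * h6
  have hw : wp U V n = V0 ^ (2 ^ (n - 1)) * τ := by
    unfold wp
    have h1 : ∀ i ∈ Finset.range n, U ^ (2 ^ i) * V ^ (2 ^ (n - 1) - 2 ^ i) =
        V0 ^ (2 ^ (n - 1)) * (U * V') ^ (2 ^ i) := by
      intro i hi
      have hi' : i ≤ n - 1 := by have := Finset.mem_range.1 hi; omega
      rw [key U V V' (n - 1) i hV hi', hVn]
    rw [Finset.sum_congr rfl h1, ← Finset.mul_sum]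
    congr 1
    rw [hτ, ← hc, ← Finset.sum_range_add_sum_Ico _ hIn.le,
      ← Finset.sum_range_add_sum_Ico (fun i => (U0 * V0') ^ (2 ^ i)) hIn.le,
      Finset.sum_add_distrib]
    have h7 : ∑ i ∈ Finset.Ico I n, (U * V') ^ (2 ^ i) =
        ∑ i ∈ Finset.Ico I n, (U0 * V0') ^ (2 ^ i) :=
      Finset.sum_congr rfl fun i hi => hV' i (Finset.mem_Ico.1 hi).1
    rw [h7]
    linear_combination (-(∑ i ∈ Finset.range I, (U0 * V0') ^ (2 ^ i))) * h2
  have hA : (V ^ (2 ^ (I - 1)) * V0 ^ (2 ^ (I - 1))) *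
      ∑ j : Fin J, (a j + b j * τ) * x ^ (j : ℕ) = 0 := by
    rw [← h, Finset.mul_sum]
    refine Finset.sum_congr rfl fun j _ => ?_
    rw [hβ]; ring
  have hB : ∑ j : Fin J, (a j + b j * τ) * x ^ (j : ℕ) = 0 := by
    have h5 : V ^ (2 ^ (I - 1)) * V' ^ (2 ^ (I - 1)) = 1 := by rw [← mul_pow, hV, one_pow]
    have h6 : V0 ^ (2 ^ (I - 1)) * V0' ^ (2 ^ (I - 1)) = 1 := by rw [← mul_pow, hV0, one_pow]
    calc _ = (V ^ (2 ^ (I - 1)) * V' ^ (2 ^ (I - 1))) * (V0 ^ (2 ^ (I - 1)) * V0' ^ (2 ^ (I - 1))) *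
          ∑ j : Fin J, (a j + b j * τ) * x ^ (j : ℕ) := by rw [h5, h6]; ring
      _ = (V' ^ (2 ^ (I - 1)) * V0' ^ (2 ^ (I - 1))) * ((V ^ (2 ^ (I - 1)) * V0 ^ (2 ^ (I - 1))) *
          ∑ j : Fin J, (a j + b j * τ) * x ^ (j : ℕ)) := by ring
      _ = 0 := by rw [hA, mul_zero]
  calc _ = V0 ^ (2 ^ (n - 1)) * ∑ j : Fin J, (a j + b j * τ) * x ^ (j : ℕ) := by
        rw [Finset.mul_sum]
        refine Finset.sum_congr rfl fun j _ => ?_
        rw [hw, hVn, hx]; ring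
    _ = 0 := by rw [hB, mul_zero]

section

variable {F : Type} [Field F]

/-- Vanishing of high order. -/
theorem vanish [Fintype F] [CharP F 2] (n I J : ℕ) (hI : 1 ≤ I) (hIn : I < n)
    (hF : Fintype.card F = 2 ^ n) (u v : F[X]) (x₀ c : F) (hv : v.eval x₀ ≠ 0)
    (hT : ∑ i ∈ Finset.range n, (u.eval x₀ / v.eval x₀) ^ (2 ^ i) = c) (a b : Fin J → F[X])
    (h : (X - C x₀) ^ (2 ^ I) ∣ ∑ j : Fin J, (a j * (v ^ (2 ^ (I - 1)) *
        C (v.eval x₀) ^ (2 ^ (I - 1))) +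
      b j * (C c * (v ^ (2 ^ (I - 1)) * C (v.eval x₀) ^ (2 ^ (I - 1))) + ∑ i ∈ Finset.range I,
        (u ^ (2 ^ i) * v ^ (2 ^ (I - 1) - 2 ^ i) * C (v.eval x₀) ^ (2 ^ (I - 1)) +
          v ^ (2 ^ (I - 1)) * (C (u.eval x₀) ^ (2 ^ i) *
            C (v.eval x₀) ^ (2 ^ (I - 1) - 2 ^ i))))) * C x₀ ^ (j : ℕ)) :
    (X - C x₀) ^ (2 ^ I) ∣
      ∑ j : Fin J, (a j * v ^ (2 ^ (n - 1)) + b j * wp u v n) * (X ^ (2 ^ n)) ^ (j : ℕ) := by
  set Id : Ideal F[X] := Ideal.span {(X - C x₀) ^ (2 ^ I)} with hId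
  set φ := Ideal.Quotient.mk Id with hφ
  have hφ0 : ∀ f : F[X], φ f = 0 ↔ (X - C x₀) ^ (2 ^ I) ∣ f := by
    intro f
    rw [hφ, Ideal.Quotient.eq_zero_iff_mem, hId, Ideal.mem_span_singleton]
  have hpow : ∀ (f : F[X]) (i : ℕ), I ≤ i → φ f ^ (2 ^ i) = φ (C (f.eval x₀)) ^ (2 ^ i) := by
    intro f i hi
    have h1 : (X - C x₀) ∣ f - C (f.eval x₀) := by
      rw [dvd_iff_isRoot]; simp
    obtain ⟨g, hg⟩ := h1
    have h2 : (f - C (f.eval x₀)) ^ (2 ^ i) = f ^ (2 ^ i) - C (f.eval x₀) ^ (2 ^ i) :=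
      sub_pow_char_pow _ _ i
    have h3 : φ (f ^ (2 ^ i) - C (f.eval x₀) ^ (2 ^ i)) = 0 := by
      rw [hφ0, ← h2, hg, mul_pow]
      exact dvd_mul_of_dvd_left (pow_dvd_pow _ (Nat.pow_le_pow_right (by norm_num) hi)) _
    rw [map_sub, map_pow, map_pow, sub_eq_zero] at h3
    exact h3
  obtain ⟨v', hv'⟩ : ∃ v', φ v * φ v' = 1 := by
    have h1 : IsCoprime v ((X - C x₀) ^ (2 ^ I)) := by
      refine IsCoprime.pow_right ?_
      rw [isCoprime_comm, Irreducible.coprime_iff_not_dvd (irreducible_X_sub_C x₀),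
        dvd_iff_isRoot]
      exact hv
    obtain ⟨p, q, hpq⟩ := h1
    refine ⟨p, ?_⟩
    have h2 : φ (p * v + q * (X - C x₀) ^ (2 ^ I)) = 1 := by rw [hpq, map_one]
    rw [map_add, map_mul, map_mul, (hφ0 _).2 dvd_rfl, mul_zero, add_zero] at h2
    rw [mul_comm]; exact h2
  have h2 : (2 : F[X] ⧸ Id) = 0 := by
    have : (2 : F[X] ⧸ Id) = φ 2 := (map_ofNat φ 2).symm
    rw [this, CharTwo.two_eq_zero, map_zero]
  rw [← hφ0] at h ⊢
  have hx : φ (X ^ (2 ^ n)) = φ (C x₀) := by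
    rw [map_pow, hpow X n hIn.le, eval_X, ← map_pow, ← C_pow, ← hF, FiniteField.pow_card]
  have hwp : φ (wp u v n) = wp (φ u) (φ v) n := by
    simp [wp]
  rw [map_sum] at h ⊢
  simp only [map_mul, map_add, map_pow, map_sum, hwp] at h ⊢
  rw [← map_pow φ X (2 ^ n)]
  refine quot_calc h2 n I J hI hIn (φ u) (φ v) (φ v') (φ (C (u.eval x₀))) (φ (C (v.eval x₀)))
    (φ (C (v.eval x₀)⁻¹)) (φ (C x₀)) _ (φ (C c)) hv' ?_ (fun i hi => hpow u i hi)
    (fun i hi => hpow v i hi) hx ?_ (fun j => φ (a j)) (fun j => φ (b j)) h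
  · rw [← map_mul, ← C_mul, mul_inv_cancel₀ hv, C_1, map_one]
  · rw [← hT, map_sum, map_sum]
    refine Finset.sum_congr rfl fun i _ => ?_
    rw [← map_mul, ← C_mul, ← map_pow, ← C_pow, div_eq_mul_inv]

/-- **Stepanov's bound.** -/
theorem stepanov [Fintype F] [DecidableEq F] [CharP F 2] (n I s B J : ℕ) (hI : 1 ≤ I) (hIn : I < n)
    (hF : Fintype.card F = 2 ^ n) (u v v' : F[X]) (r : F) (hv : v = (X - C r) * v')
    (hv' : v'.eval r ≠ 0) (hu : u.eval r ≠ 0) (hv0 : v.eval 0 ≠ 0) (hvd : v.natDegree ≤ s)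
    (hud : u.natDegree ≤ s + 1) (hB : 2 * B + s + 1 < 2 ^ n) (c : F)
    (hcard : 2 ^ I * (B + J + (s + 1) * 2 ^ I) < 2 * (B * J)) (hJ : 1 ≤ J) :
    2 ^ I * (Finset.univ.filter fun x₀ : F => v.eval x₀ ≠ 0 ∧
      ∑ i ∈ Finset.range n, (u.eval x₀ / v.eval x₀) ^ (2 ^ i) = c).card ≤
      B + (s + 1) * 2 ^ (n - 1) + (J - 1) * 2 ^ n := by
  set h := 2 ^ (I - 1) with hh
  have h2h : 2 ^ I = h + h := by
    rw [hh]
    have : 2 ^ I = 2 ^ (I - 1) * 2 := by rw [← pow_succ]; congr 1; omega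
    omega
  let α : F[X][X] := (v.map C) ^ h * C (v ^ h)
  let β : F[X][X] := C (C c) * α + ∑ i ∈ Finset.range I,
    ((u.map C) ^ (2 ^ i) * (v.map C) ^ (h - 2 ^ i) * C (v ^ h) +
      (v.map C) ^ h * C (u ^ (2 ^ i) * v ^ (h - 2 ^ i)))
  have hle : ∀ i ∈ Finset.range I, 2 ^ i ≤ h := fun i hi => by
    have := Finset.mem_range.1 hi
    exact Nat.pow_le_pow_right (by norm_num) (by omega)
  have hV : ∀ m : ℕ, BD ((s + 1) * m) 0 ((v.map C) ^ m) := fun m =>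
    ((BD.mapC hvd).pow m).mono (by rw [mul_comm]; gcongr; omega) (by omega)
  have hU : ∀ m : ℕ, BD ((s + 1) * m) 0 ((u.map C) ^ m) := fun m =>
    ((BD.mapC hud).pow m).mono (by rw [mul_comm]) (by omega)
  have hvp : ∀ m : ℕ, (v ^ m).natDegree ≤ (s + 1) * m := fun m =>
    natDegree_pow_le.trans (by rw [mul_comm]; gcongr; omega)
  have hup : ∀ m : ℕ, (u ^ m).natDegree ≤ (s + 1) * m := fun m =>
    natDegree_pow_le.trans (by rw [mul_comm]; gcongr)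
  have hα : BD ((s + 1) * h) ((s + 1) * h) α :=
    ((hV h).mul (BD.C (hvp h))).mono (by omega) (by omega)
  have hβ : BD ((s + 1) * h) ((s + 1) * h) β := by
    refine BD.add ?_ (BD.sum _ fun i hi => ?_)
    · exact ((BD.C (b := 0) (r := C c) (by simp)).mul hα).mono (by omega) (by omega)
    · have hi' := hle i hi
      have e1 : (s + 1) * 2 ^ i + (s + 1) * (h - 2 ^ i) = (s + 1) * h := by
        rw [← mul_add]; congr 1; omega
      refine BD.add ?_ ?_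
      · exact (((hU (2 ^ i)).mul (hV (h - 2 ^ i))).mul (BD.C (hvp h))).mono (by omega) (by omega)
      · refine ((hV h).mul (BD.C (b := (s + 1) * h) ?_)).mono (by omega) (by omega)
        refine natDegree_mul_le.trans ((add_le_add (hup _) (hvp _)).trans e1.le)
  obtain ⟨a, b, ha, hb, hne, hdvd⟩ := elim (2 ^ I) B J _ _ α β hα hβ (by
    refine lt_of_le_of_lt (le_of_eq ?_) hcard
    rw [h2h]; ring)
  set Φ : F[X] := ∑ j : Fin J, (a j * v ^ (2 ^ (n - 1)) + b j * wp u v n) *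
    (X ^ (2 ^ n)) ^ (j : ℕ) with hΦ
  have hΦ0 : Φ ≠ 0 := nonvan n s B J (by omega) hF u v v' r hv hv' hu hv0 hvd hud hB a b
    (fun j => (ha j).trans (by omega)) (fun j => (hb j).trans (by omega)) hne
  have hvan : ∀ x₀ : F, v.eval x₀ ≠ 0 →
      ∑ i ∈ Finset.range n, (u.eval x₀ / v.eval x₀) ^ (2 ^ i) = c → (X - C x₀) ^ (2 ^ I) ∣ Φ := by
    intro x₀ hx hT
    refine vanish n I J hI hIn hF u v x₀ c hx hT a b ?_
    have h1 := hdvd x₀
    convert h1 using 1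
    refine Finset.sum_congr rfl fun j _ => ?_
    have h5 : ∀ q : F[X], (q.map C).map (evalRingHom x₀) = q := by
      intro q
      rw [Polynomial.map_map]
      have : (evalRingHom x₀).comp (C : F →+* F[X]) = RingHom.id F := by
        ext; simp
      rw [this, Polynomial.map_id]
    simp only [α, β, Polynomial.map_mul, Polynomial.map_add, Polynomial.map_pow,
      Polynomial.map_sum, Polynomial.map_C, h5, coe_evalRingHom, eval_pow, eval_mul, eval_C, C_mul,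
      C_pow, hh]
  have hprod : ∏ x₀ ∈ (Finset.univ.filter fun x₀ : F => v.eval x₀ ≠ 0 ∧
      ∑ i ∈ Finset.range n, (u.eval x₀ / v.eval x₀) ^ (2 ^ i) = c),
      (X - C x₀) ^ (2 ^ I) ∣ Φ := by
    refine Finset.prod_dvd_of_coprime ?_ ?_
    · intro x _ y _ hxy
      exact IsCoprime.pow (pairwise_coprime_X_sub_C Function.injective_id hxy)
    · intro x hx
      have := (Finset.mem_filter.1 hx).2
      exact hvan x this.1 this.2
  have hdeg1 := natDegree_le_of_dvd hprod hΦ0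
  rw [natDegree_prod _ _ (fun x _ => pow_ne_zero _ (X_sub_C_ne_zero x))] at hdeg1
  simp only [natDegree_pow, natDegree_X_sub_C, mul_one, Finset.sum_const, smul_eq_mul] at hdeg1
  rw [mul_comm]
  refine hdeg1.trans ?_
  refine natDegree_sum_le_of_forall_le _ _ fun j _ => ?_
  have hj : (j : ℕ) ≤ J - 1 := by have := j.2; omega
  have hwd : (wp u v n).natDegree ≤ (s + 1) * 2 ^ (n - 1) := by
    unfold wp
    refine natDegree_sum_le_of_forall_le _ _ fun i hi => ?_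
    have hi' : 2 ^ i ≤ 2 ^ (n - 1) := by
      have := Finset.mem_range.1 hi
      exact Nat.pow_le_pow_right (by norm_num) (by omega)
    refine natDegree_mul_le.trans ((add_le_add (hup _) (hvp _)).trans (le_of_eq ?_))
    rw [← mul_add]; congr 1; omega
  have h1 : (a j * v ^ (2 ^ (n - 1)) + b j * wp u v n).natDegree ≤
      B + (s + 1) * 2 ^ (n - 1) := by
    refine (natDegree_add_le _ _).trans (max_le ?_ ?_)
    · exact natDegree_mul_le.trans (add_le_add ((ha j).trans (by omega)) (hvp _))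
    · exact natDegree_mul_le.trans (add_le_add ((hb j).trans (by omega)) hwd)
  refine natDegree_mul_le.trans (add_le_add h1 ?_)
  rw [← pow_mul, natDegree_X_pow, mul_comm]
  gcongr

end

end Pool.Agent.H955.KP
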