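import Mathlib
import Pool.Agent.H955.KP.W3

/-!
# The trace to the prime field in characteristic two
-/

namespace Pool.Agent.H955.KP

open Polynomial

section

variable {F : Type} [Field F]

theorem tr_zero_or_one [Fintype F] [CharP F 2] (n : ℕ) (hn : 1 ≤ n)
    (hF : Fintype.card F = 2 ^ n) (x : F) :
    ∑ i ∈ Finset.range n, x ^ (2 ^ i) = 0 ∨ ∑ i ∈ Finset.range n, x ^ (2 ^ i) = 1 := by
  have h := wp_rel x 1 n hn
  have h1 : wp x 1 n = ∑ i ∈ Finset.range n, x ^ (2 ^ i) := by simp [wp]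
  rw [h1, one_pow, one_pow, mul_one, mul_one, ← hF, FiniteField.pow_card, CharTwo.add_self_eq_zero]
    at h
  set T := ∑ i ∈ Finset.range n, x ^ (2 ^ i)
  have h2 : T * (T + 1) = 0 := by linear_combination h
  rcases mul_eq_zero.1 h2 with h2 | h2
  · exact Or.inl h2
  · right
    have := eq_neg_of_add_eq_zero_left h2
    rwa [CharTwo.neg_eq] at this

theorem tr_AS [Fintype F] [CharP F 2] (n : ℕ) (hF : Fintype.card F = 2 ^ n) (y : F) :
    ∑ i ∈ Finset.range n, (y ^ 2 + y) ^ (2 ^ i) = 0 := by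
  have h3 : ∀ i ∈ Finset.range n, (y ^ 2 + y) ^ (2 ^ i) = y ^ (2 ^ (i + 1)) - y ^ (2 ^ i) := by
    intro i _
    rw [add_pow_char_pow (p := 2) (n := i), CharTwo.sub_eq_add, ← pow_mul, ← pow_succ']
  rw [Finset.sum_congr rfl h3, Finset.sum_range_sub (fun i => y ^ (2 ^ i)), ← hF,
    FiniteField.pow_card]
  simp

theorem tr_ker [Fintype F] [CharP F 2] (n : ℕ) (hn : 1 ≤ n) (hF : Fintype.card F = 2 ^ n) (x : F)
    (hx : ∑ i ∈ Finset.range n, x ^ (2 ^ i) = 0) : ∃ y, y ^ 2 + y = x := by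
  classical
  let A : Finset F := Finset.univ.image fun y : F => y ^ 2 + y
  let B : Finset F := Finset.univ.filter fun x : F => ∑ i ∈ Finset.range n, x ^ (2 ^ i) = 0
  have hAB : A ⊆ B := by
    intro z hz
    obtain ⟨y, -, rfl⟩ := Finset.mem_image.1 hz
    exact Finset.mem_filter.2 ⟨Finset.mem_univ _, tr_AS n hF y⟩
  have hA : 2 ^ n ≤ 2 * A.card := by
    rw [← hF, ← Finset.card_univ]
    refine Finset.card_le_mul_card_image _ 2 fun z hz => ?_
    obtain ⟨y, -, rfl⟩ := Finset.mem_image.1 hz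
    have : (Finset.univ.filter fun a : F => a ^ 2 + a = y ^ 2 + y) ⊆ {y, y + 1} := by
      intro a ha
      have ha' := (Finset.mem_filter.1 ha).2
      have h1 : (a - y) * (a - (y + 1)) = 0 := by
        have h2 : (2 : F) = 0 := CharTwo.two_eq_zero
        linear_combination ha' + (y ^ 2 + y - a - a * y) * h2
      rcases mul_eq_zero.1 h1 with h1 | h1
      · simp [sub_eq_zero.1 h1]
      · simp [sub_eq_zero.1 h1]
    exact (Finset.card_le_card this).trans Finset.card_le_two
  have hB : B.card ≤ 2 ^ (n - 1) := by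
    let P : F[X] := ∑ i ∈ Finset.range n, X ^ (2 ^ i)
    have hP0 : P ≠ 0 := by
      intro h
      have h1 : P.coeff 1 = 1 := by
        simp only [P, finsetSum_coeff, coeff_X_pow]
        rw [Finset.sum_eq_single 0]
        · simp
        · intro i _ hi
          rw [if_neg]
          intro h
          exact hi (Nat.pow_right_injective le_rfl (by simpa using h.symm))
        · intro h; exact absurd (Finset.mem_range.2 (by omega)) h
      rw [h] at h1
      simp at h1
    have hPd : P.natDegree ≤ 2 ^ (n - 1) := by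
      refine natDegree_sum_le_of_forall_le _ _ fun i hi => ?_
      rw [natDegree_X_pow]
      have := Finset.mem_range.1 hi
      exact Nat.pow_le_pow_right (by norm_num) (by omega)
    have hBP : B ⊆ P.roots.toFinset := by
      intro z hz
      have hz' := (Finset.mem_filter.1 hz).2
      rw [Multiset.mem_toFinset, mem_roots hP0, IsRoot.def]
      simpa [P, eval_finsetSum] using hz'
    exact (Finset.card_le_card hBP).trans ((Multiset.toFinset_card_le _).trans
      ((card_roots' P).trans hPd))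
  have hEq : A = B := by
    refine Finset.eq_of_subset_of_card_le hAB ?_
    have : 2 ^ n = 2 ^ (n - 1) * 2 := by rw [← pow_succ]; congr 1; omega
    omega
  have : x ∈ A := by rw [hEq]; exact Finset.mem_filter.2 ⟨Finset.mem_univ _, hx⟩
  obtain ⟨y, -, hy⟩ := Finset.mem_image.1 this
  exact ⟨y, hy⟩

/-- The numerical part of Stepanov's bound. -/
theorem stepanov_num (n D N : ℕ) (hM : 8 * D + 16 ≤ 2 ^ (n / 2))
    (h : 2 ^ (n / 2) * N ≤ 2 ^ (n - 2) + (D + 1) * 2 ^ (n - 1) +
      ((2 ^ (n / 2 - 1) + (2 * D + 4)) - 1) * 2 ^ n) :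
    (N : ℝ) ≤ (2 : ℝ) ^ n / 2 + (6 * D + 10) * Real.sqrt ((2 : ℝ) ^ n) := by
  have hI : 1 ≤ n / 2 := by
    by_contra h0
    have : n / 2 = 0 := by omega
    rw [this] at hM; omega
  have e1 : (2 : ℝ) ^ n = 4 * 2 ^ (n - 2) := by
    have : n = (n - 2) + 2 := by omega
    conv_lhs => rw [this, pow_add]
    norm_num; ring
  have e2 : (2 : ℝ) ^ n = 2 * 2 ^ (n - 1) := by
    have : n = (n - 1) + 1 := by omega
    conv_lhs => rw [this, pow_add]
    norm_num; ring
  have e3 : (2 : ℝ) ^ (n / 2) = 2 * 2 ^ (n / 2 - 1) := by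
    have : n / 2 = (n / 2 - 1) + 1 := by omega
    conv_lhs => rw [this, pow_add]
    norm_num; ring
  set M : ℝ := (2 : ℝ) ^ (n / 2) with hMdef
  have hMpos : 0 < M := by positivity
  set q : ℝ := (2 : ℝ) ^ n with hq
  have hqpos : 0 < q := by positivity
  have hqM : q ≤ 2 * M ^ 2 := by
    rw [hq, hMdef, ← pow_mul, ← pow_succ']
    exact pow_le_pow_right₀ (by norm_num) (by omega)
  have hsq : Real.sqrt q ≤ 2 * M := by
    rw [Real.sqrt_le_left (by positivity)]
    nlinarith
  have h' : M * N ≤ q / 4 + (D + 1) * (q / 2) + (M / 2 + (2 * D + 4)) * q := by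
    have h1 : ((2 ^ (n / 2) * N : ℕ) : ℝ) ≤ ((2 ^ (n - 2) + (D + 1) * 2 ^ (n - 1) +
      (2 ^ (n / 2 - 1) + (2 * D + 4)) * 2 ^ n : ℕ) : ℝ) := by
      exact_mod_cast h.trans (Nat.add_le_add_left (Nat.mul_le_mul_right _ (Nat.sub_le _ _)) _)
    push_cast at h1
    have e4 : (2 : ℝ) ^ (n - 2) = q / 4 := by rw [e1]; ring
    have e5 : (2 : ℝ) ^ (n - 1) = q / 2 := by rw [e2]; ring
    have e6 : (2 : ℝ) ^ (n / 2 - 1) = M / 2 := by rw [e3]; ring
    rw [e4, e5, e6] at h1
    exact h1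
  have h2 : M * (N : ℝ) ≤ M * (q / 2 + (6 * D + 10) * Real.sqrt q) := by
    have h3 : q ≤ 2 * M * Real.sqrt q := by
      have h4 : Real.sqrt q * Real.sqrt q = q := Real.mul_self_sqrt hqpos.le
      calc q = Real.sqrt q * Real.sqrt q := h4.symm
        _ ≤ 2 * M * Real.sqrt q := by gcongr
    have hD : (0 : ℝ) ≤ D := Nat.cast_nonneg D
    have h5 : q / 4 + (D + 1) * (q / 2) + (2 * D + 4) * q ≤ (3 * D + 5) * q := by nlinarith
    have h6 : (3 * (D : ℝ) + 5) * q ≤ (3 * D + 5) * (2 * M * Real.sqrt q) := by gcongr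
    nlinarith
  exact le_of_mul_le_mul_left h2 hMpos

end

end Pool.Agent.H955.KP
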