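import Pool.Agent.H985.KP.StmKP
import Pool.Agent.H955.KP.W4

/-!
# Task WEIL: `S_weil`
-/

namespace Pool.Agent.H955.KP

open Polynomial
open Pool.Agent.H985.KP (sg pol S_weil)

theorem sg_le_one {F : Type} [Field F] (x : F) : |sg x| ≤ 1 := by
  unfold sg; split_ifs <;> simp

theorem pol_le_one {F : Type} [Field F] {m : ℕ} (r γ : Fin m → F) (ξ η x : F) :
    |pol r γ ξ η x| ≤ 1 := by
  unfold pol; split_ifs
  · simp
  · exact sg_le_one _

/-- The bound when `0` is not a pole and the field is large. -/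
theorem weil0 (D : ℕ) (F : Type) [Field F] [Fintype F] [CharP F 2] (n m : ℕ)
    (hF : Fintype.card F = 2 ^ n) (hM : 8 * D + 16 ≤ 2 ^ (n / 2)) (hm : m ≤ D) (r γ : Fin m → F)
    (hr : Function.Injective r) (hγ : ∃ i, γ i ≠ 0) (hr0 : ∀ i, r i ≠ 0) (ξ η : F) :
    |∑ x, pol r γ ξ η x| ≤ (13 * D + 20) * Real.sqrt ((2 : ℝ) ^ n) := by
  classical
  have hI : 1 ≤ n / 2 := by
    by_contra h0
    have : n / 2 = 0 := by omega
    rw [this] at hM; omega
  have hn2 : 2 ≤ n := by omega
  -- the polynomials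
  set P : Finset (Fin m) := Finset.univ.filter fun i => γ i ≠ 0 with hP
  set v : F[X] := ∏ i ∈ P, (X - C (r i)) with hv
  set u : F[X] := ∑ i ∈ P, C (γ i) * ∏ k ∈ P.erase i, (X - C (r k)) +
    (C ξ * X + C η) * v with hu
  obtain ⟨i₀, hi₀⟩ := hγ
  have hi₀P : i₀ ∈ P := Finset.mem_filter.2 ⟨Finset.mem_univ _, hi₀⟩
  set v' : F[X] := ∏ i ∈ P.erase i₀, (X - C (r i)) with hv'
  have hvv' : v = (X - C (r i₀)) * v' := (Finset.mul_prod_erase P _ hi₀P).symm
  have hPcard : P.card ≤ D := by
    refine (Finset.card_le_univ P).trans ?_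
    simpa using hm
  have hev : ∀ (Q : Finset (Fin m)) (x : F), (∀ i ∈ Q, x ≠ r i) →
      (∏ i ∈ Q, (X - C (r i))).eval x ≠ 0 := by
    intro Q x hx
    rw [eval_prod, Finset.prod_ne_zero_iff]
    intro i hi
    rw [eval_sub, eval_X, eval_C]
    exact sub_ne_zero.2 (hx i hi)
  have hv'0 : v'.eval (r i₀) ≠ 0 := hev _ _ fun i hi h =>
    (Finset.mem_erase.1 hi).1 (hr h).symm
  have hv0 : v.eval 0 ≠ 0 := hev _ _ fun i _ h => hr0 i h.symm
  have hu0 : u.eval (r i₀) ≠ 0 := by
    have h1 : v.eval (r i₀) = 0 := by rw [hvv']; simp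
    have h2 : u.eval (r i₀) = γ i₀ * v'.eval (r i₀) := by
      rw [hu, eval_add, eval_mul (q := v), h1, mul_zero, add_zero, eval_finsetSum,
        Finset.sum_eq_single i₀]
      · rw [eval_mul, eval_C]
      · intro i hi hii
        rw [eval_mul, eval_prod, Finset.prod_eq_zero (Finset.mem_erase.2 ⟨hii.symm, hi₀P⟩)]
        · simp
        · simp
      · intro h; exact absurd hi₀P h
    rw [h2]
    exact mul_ne_zero hi₀ hv'0
  have hpd : ∀ Q : Finset (Fin m), (∏ i ∈ Q, (X - C (r i))).natDegree ≤ Q.card := by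
    intro Q
    rw [natDegree_prod _ _ (fun i _ => X_sub_C_ne_zero (r i))]
    simp
  have hvd : v.natDegree ≤ D := (hpd P).trans hPcard
  have hud : u.natDegree ≤ D + 1 := by
    refine (natDegree_add_le _ _).trans (max_le ?_ ?_)
    · refine natDegree_sum_le_of_forall_le _ _ fun i hi => ?_
      refine (natDegree_C_mul_le _ _).trans ((hpd _).trans ?_)
      exact (Finset.card_le_card (Finset.erase_subset _ _)).trans (hPcard.trans (by omega))
    · refine natDegree_mul_le.trans ?_
      have h1 : (C ξ * X + C η : F[X]).natDegree ≤ 1 := natDegree_linear_le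
      omega
  have hval : ∀ x : F, v.eval x ≠ 0 →
      u.eval x / v.eval x = ∑ i, γ i / (x - r i) + ξ * x + η := by
    intro x hx
    have hx' : ∀ i ∈ P, x - r i ≠ 0 := by
      intro i hi h
      apply hx
      rw [hv, eval_prod]
      exact Finset.prod_eq_zero hi (by simp [h])
    have h1 : ∑ i, γ i / (x - r i) = ∑ i ∈ P, γ i / (x - r i) := by
      rw [hP, Finset.sum_filter]
      refine Finset.sum_congr rfl fun i _ => ?_
      split_ifs with h
      · rfl
      · push Not at h; simp [h]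
    rw [h1, div_eq_iff hx, hu, eval_add, eval_mul (q := v), add_assoc, add_mul]
    congr 1
    · rw [eval_finsetSum, Finset.sum_mul]
      refine Finset.sum_congr rfl fun i hi => ?_
      rw [eval_mul, eval_C, hv, ← Finset.mul_prod_erase P _ hi, eval_mul, eval_sub, eval_X,
        eval_C]
      have := hx' i hi
      field_simp
    · simp
  -- Stepanov
  have hqD : D + 1 < 2 ^ (n - 1) := by
    have h1 : 2 ^ (n / 2) ≤ 2 ^ (n - 1) := Nat.pow_le_pow_right (by norm_num) (by omega)
    omega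
  have hBB : 4 * 2 ^ (n - 2) = 2 ^ n := by
    have : 2 ^ n = 2 ^ (n - 2) * 2 ^ 2 := by rw [← pow_add]; congr 1; omega
    omega
  have hBB' : 2 * 2 ^ (n - 2) = 2 ^ (n - 1) := by
    have : 2 ^ (n - 1) = 2 ^ (n - 2) * 2 := by rw [← pow_succ]; congr 1; omega
    omega
  have hMM : 2 ^ (n / 2) * 2 ^ (n / 2) ≤ 2 ^ n := by
    rw [← pow_add]; exact Nat.pow_le_pow_right (by norm_num) (by omega)
  have hMh : 2 ^ (n / 2) = 2 * 2 ^ (n / 2 - 1) := by
    have : 2 ^ (n / 2) = 2 ^ (n / 2 - 1) * 2 := by rw [← pow_succ]; congr 1; omega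
    omega
  have hst : ∀ c : F, ((Finset.univ.filter fun x₀ : F => v.eval x₀ ≠ 0 ∧
      ∑ i ∈ Finset.range n, (u.eval x₀ / v.eval x₀) ^ (2 ^ i) = c).card : ℝ) ≤
      (2 : ℝ) ^ n / 2 + (6 * D + 10) * Real.sqrt ((2 : ℝ) ^ n) := by
    intro c
    refine stepanov_num n D _ hM ?_
    refine stepanov n (n / 2) D (2 ^ (n - 2)) (2 ^ (n / 2 - 1) + (2 * D + 4)) hI (by omega) hF u v
      v' (r i₀) hvv' hv'0 hu0 hv0 hvd hud ?_ c ?_ (by omega)
    · have h2 : 2 ^ n = 2 * 2 ^ (n - 1) := by
        have : 2 ^ n = 2 ^ (n - 1) * 2 := by rw [← pow_succ]; congr 1; omega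
        omega
      omega
    · set M := 2 ^ (n / 2)
      set h := 2 ^ (n / 2 - 1)
      set B := 2 ^ (n - 2)
      have hBpos : 0 < B := by positivity
      have h1 : 2 * (M * h) ≤ 4 * B := by
        calc 2 * (M * h) = M * M := by rw [hMh]; ring
          _ ≤ 4 * B := by rw [hBB]; exact hMM
      have h2 : 4 * (M * (2 * D + 4)) ≤ 4 * B := by
        calc 4 * (M * (2 * D + 4)) = M * (8 * D + 16) := by ring
          _ ≤ M * M := by gcongr
          _ ≤ 4 * B := by rw [hBB]; exact hMM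
      have h3 : (D + 1) * (M * M) ≤ (D + 1) * (4 * B) := by
        rw [hBB]; gcongr
      have h4 : M * B = 2 * (B * h) := by rw [hMh]; ring
      calc M * (B + (h + (2 * D + 4)) + (D + 1) * M)
          = M * B + M * h + M * (2 * D + 4) + (D + 1) * (M * M) := by ring
        _ ≤ 2 * (B * h) + 2 * B + B + (D + 1) * (4 * B) := by omega
        _ < 2 * (B * h) + B * (4 * D + 8) := by nlinarith
        _ = 2 * (B * (h + (2 * D + 4))) := by ring
  -- the sum
  have hT := tr_zero_or_one n (by omega) hF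
  have hker := tr_ker n (by omega) hF
  set T : F → F := fun x => ∑ i ∈ Finset.range n, x ^ (2 ^ i) with hTdef
  have hsg : ∀ x : F, sg x = if T x = 0 then 1 else -1 := by
    intro x
    unfold sg
    by_cases h : T x = 0
    · rw [if_pos h, if_pos (hker x h)]
    · rw [if_neg h, if_neg]
      rintro ⟨y, rfl⟩
      exact h (tr_AS n hF y)
  let R : F → F := fun x => ∑ i, γ i / (x - r i) + ξ * x + η
  let G : Finset F := Finset.univ.filter fun x : F => ¬ ∃ i, x = r i
  have hGv : ∀ x ∈ G, v.eval x ≠ 0 := by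
    intro x hx
    refine hev _ _ fun i _ h => ?_
    exact (Finset.mem_filter.1 hx).2 ⟨i, h⟩
  have hGcard : 2 ^ n ≤ G.card + D := by
    have h1 : (Finset.univ.filter fun x : F => ∃ i, x = r i).card ≤ D := by
      have : (Finset.univ.filter fun x : F => ∃ i, x = r i) ⊆ Finset.univ.image r := by
        intro x hx
        obtain ⟨i, hi⟩ := (Finset.mem_filter.1 hx).2
        exact Finset.mem_image.2 ⟨i, Finset.mem_univ _, hi.symm⟩
      refine (Finset.card_le_card this).trans (Finset.card_image_le.trans ?_)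
      simpa using hm
    have h2 := Finset.card_filter_add_card_filter_not (s := (Finset.univ : Finset F))
      (fun x : F => ∃ i, x = r i)
    rw [Finset.card_univ, hF] at h2
    have h3 : G.card = (Finset.univ.filter fun x : F => ¬ ∃ i, x = r i).card := rfl
    omega
  let A : F → Finset F := fun c => G.filter fun x => T (R x) = c
  have hA : ∀ c, ((A c).card : ℝ) ≤ (2 : ℝ) ^ n / 2 + (6 * D + 10) * Real.sqrt ((2 : ℝ) ^ n) := by
    intro c
    refine le_trans ?_ (hst c)
    have : A c ⊆ Finset.univ.filter fun x₀ : F => v.eval x₀ ≠ 0 ∧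
      ∑ i ∈ Finset.range n, (u.eval x₀ / v.eval x₀) ^ (2 ^ i) = c := by
      intro x hx
      have h1 := Finset.mem_filter.1 hx
      refine Finset.mem_filter.2 ⟨Finset.mem_univ _, hGv x h1.1, ?_⟩
      rw [hval x (hGv x h1.1)]
      exact h1.2
    exact_mod_cast Finset.card_le_card this
  have hsum : ∑ x, pol r γ ξ η x = ((A 0).card : ℝ) - (A 1).card := by
    have h1 : ∀ x, pol r γ ξ η x = if x ∈ G then (if T (R x) = 0 then (1 : ℝ) else -1) else 0 := by
      intro x
      unfold pol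
      by_cases hx : ∃ i, x = r i
      · rw [if_pos hx, if_neg]
        intro h; exact (Finset.mem_filter.1 h).2 hx
      · have hxG : x ∈ G := Finset.mem_filter.2 ⟨Finset.mem_univ _, hx⟩
        rw [if_neg hx, if_pos hxG, hsg]
    rw [Finset.sum_congr rfl fun x _ => h1 x, ← Finset.sum_filter, Finset.filter_mem_eq_inter,
      Finset.univ_inter]
    have h2 : ∀ x ∈ G, (if T (R x) = 0 then (1 : ℝ) else -1) =
        (if T (R x) = 0 then (1 : ℝ) else 0) - (if T (R x) = 1 then (1 : ℝ) else 0) := by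
      intro x _
      rcases hT (R x) with h | h
      · have h' : T (R x) = 0 := h
        rw [h']; simp
      · have h' : T (R x) = 1 := h
        rw [h']; simp
    rw [Finset.sum_congr rfl h2, Finset.sum_sub_distrib, Finset.sum_boole, Finset.sum_boole]
  have hcard : ((A 0).card : ℝ) + (A 1).card = G.card := by
    have h1 : A 1 = G.filter fun x => ¬ T (R x) = 0 := by
      refine Finset.filter_congr fun x _ => ?_
      rcases hT (R x) with h | h
      · have h' : T (R x) = 0 := h
        rw [h']; simp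
      · have h' : T (R x) = 1 := h
        rw [h']; simp
    rw [h1]
    exact_mod_cast Finset.card_filter_add_card_filter_not (s := G) (fun x => T (R x) = 0)
  have hGr : (2 : ℝ) ^ n ≤ G.card + D := by exact_mod_cast hGcard
  have hGr' : (G.card : ℝ) ≤ (2 : ℝ) ^ n := by
    have : G.card ≤ 2 ^ n := by
      rw [← hF]; exact Finset.card_le_univ G
    exact_mod_cast this
  have hs1 : 1 ≤ Real.sqrt ((2 : ℝ) ^ n) := by
    rw [Real.one_le_sqrt]; exact one_le_pow₀ (by norm_num)
  have hD : (0 : ℝ) ≤ D := Nat.cast_nonneg D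
  have h0 := hA 0
  have h1 := hA 1
  rw [hsum, abs_le]
  constructor <;> nlinarith

theorem weil : S_weil := by
  intro D
  refine ⟨13 * D + 20 + (2 : ℝ) ^ (16 * D + 32), ?_, ?_⟩
  · have : (0 : ℝ) < (2 : ℝ) ^ (16 * D + 32) := by positivity
    have hD : (0 : ℝ) ≤ D := Nat.cast_nonneg D
    linarith
  intro F _ _ _ m hm r γ hr hγ ξ η
  classical
  obtain ⟨n, -, hn⟩ := FiniteField.card F 2
  have hF : Fintype.card F = 2 ^ (n : ℕ) := hn
  have hcast : (Fintype.card F : ℝ) = (2 : ℝ) ^ (n : ℕ) := by rw [hF]; push_cast; ring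
  rw [hcast]
  have hs0 : 0 ≤ Real.sqrt ((2 : ℝ) ^ (n : ℕ)) := Real.sqrt_nonneg _
  have hD : (0 : ℝ) ≤ D := Nat.cast_nonneg D
  by_cases hbig : 16 * D + 32 ≤ (n : ℕ)
  · have hM : 8 * D + 16 ≤ 2 ^ ((n : ℕ) / 2) := by
      have h1 : 8 * D + 16 ≤ (n : ℕ) / 2 := by omega
      exact h1.trans (Nat.lt_two_pow_self).le
    -- a translation
    obtain ⟨t, ht⟩ : ∃ t : F, ∀ i, t ≠ r i := by
      by_contra hcon
      push Not at hcon
      have h1 : Fintype.card F ≤ Fintype.card (Fin m) :=
        Fintype.card_le_of_surjective r fun t => by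
          obtain ⟨i, hi⟩ := hcon t
          exact ⟨i, hi.symm⟩
      rw [Fintype.card_fin, hF] at h1
      have h2 : 2 ^ ((n : ℕ) / 2) ≤ 2 ^ (n : ℕ) := Nat.pow_le_pow_right (by norm_num) (by omega)
      omega
    have h1 : ∑ x, pol r γ ξ η x = ∑ x, pol (fun i => r i - t) γ ξ (η + ξ * t) x := by
      rw [← Equiv.sum_comp (Equiv.addRight t) (fun x => pol r γ ξ η x)]
      refine Finset.sum_congr rfl fun x _ => ?_
      simp only [pol, Equiv.coe_addRight]
      have h2 : (∃ i, x + t = r i) ↔ ∃ i, x = r i - t := by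
        refine exists_congr fun i => ?_
        rw [eq_sub_iff_add_eq]
      have h3 : ∑ i, γ i / (x + t - r i) + ξ * (x + t) + η =
          ∑ i, γ i / (x - (r i - t)) + ξ * x + (η + ξ * t) := by
        have : ∀ i, x + t - r i = x - (r i - t) := fun i => by ring
        simp only [this]
        ring
      rw [h3]
      by_cases h : ∃ i, x = r i - t
      · rw [if_pos h, if_pos (h2.2 h)]
      · rw [if_neg h, if_neg (fun h' => h (h2.1 h'))]
    rw [h1]
    refine (weil0 D F n m hF hM hm (fun i => r i - t) γ (fun i j hij => hr (by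
      have : r i - t = r j - t := hij
      linear_combination this)) hγ (fun i h => ht i (sub_eq_zero.1 h).symm) ξ _).trans ?_
    have : (0 : ℝ) < (2 : ℝ) ^ (16 * D + 32) := by positivity
    nlinarith
  · -- trivial bound
    push Not at hbig
    have h1 : |∑ x, pol r γ ξ η x| ≤ (2 : ℝ) ^ (n : ℕ) := by
      refine (Finset.abs_sum_le_sum_abs _ _).trans ?_
      refine (Finset.sum_le_sum fun x _ => pol_le_one r γ ξ η x).trans ?_
      rw [Finset.sum_const, Finset.card_univ, nsmul_eq_mul, mul_one, hcast]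
    have h2 : (2 : ℝ) ^ (n : ℕ) = Real.sqrt ((2 : ℝ) ^ (n : ℕ)) * Real.sqrt ((2 : ℝ) ^ (n : ℕ)) :=
      (Real.mul_self_sqrt (by positivity)).symm
    have h3 : Real.sqrt ((2 : ℝ) ^ (n : ℕ)) ≤ (2 : ℝ) ^ (16 * D + 32) := by
      rw [Real.sqrt_le_left (by positivity), ← pow_mul]
      exact pow_le_pow_right₀ (by norm_num) (by omega)
    calc _ ≤ Real.sqrt ((2 : ℝ) ^ (n : ℕ)) * Real.sqrt ((2 : ℝ) ^ (n : ℕ)) := h1.trans h2.le
      _ ≤ (2 : ℝ) ^ (16 * D + 32) * Real.sqrt ((2 : ℝ) ^ (n : ℕ)) := by gcongr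
      _ ≤ _ := by
        have : 0 ≤ (13 * (D : ℝ) + 20) * Real.sqrt ((2 : ℝ) ^ (n : ℕ)) := by positivity
        linarith

end Pool.Agent.H955.KP

namespace Pool.Agent.H985.KP

theorem weil : S_weil := Pool.Agent.H955.KP.weil

end Pool.Agent.H985.KP
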